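import Pool.Agent.Lib.MP_c5838f_co.SP.Iface

/-! # Module CNT: the sizes of `tset` and `bset`; helper65 -/

set_option autoImplicit false

open Finset

namespace Pool.Agent.Lib.MP_c5838f_co.SP.H65

theorem cnt : CntStatement := by
  classical
  intro A _ _ _ W K D h0
  -- boxes
  let box : Finset A → Finset (Fin K) → Finset (Fin K → A) := fun V S =>
    Fintype.piFinset fun i => if i ∈ S then V else {0}
  have hcard : ∀ (V : Finset A) (S : Finset (Fin K)), #(box V S) = #V ^ #S := by
    intro V S
    rw [Fintype.card_piFinset]
    have h1 : ∀ i : Fin K, #(if i ∈ S then V else {0}) = if i ∈ S then #V else 1 := by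
      intro i
      split_ifs <;> simp
    rw [prod_congr rfl fun i _ => h1 i, prod_ite_mem, univ_inter, prod_const]
  have hmem : ∀ (V : Finset A) (S : Finset (Fin K)) (x : Fin K → A),
      x ∈ box V S ↔ ∀ i, x i ∈ (if i ∈ S then V else {0}) := fun V S x => Fintype.mem_piFinset
  have hsupp : ∀ (S : Finset (Fin K)) (x : Fin K → A), x ∈ box W S →
      ({i | x i ≠ 0} : Finset (Fin K)) = S := by
    intro S x hx
    rw [hmem] at hx
    ext i
    rw [mem_filter_univ]
    have := hx i
    by_cases h : i ∈ S
    · rw [if_pos h] at this
      refine ⟨fun _ => h, fun _ e => h0 (e ▸ this)⟩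
    · rw [if_neg h, mem_singleton] at this
      exact ⟨fun e => absurd this e, fun e => absurd e h⟩
  constructor
  · have h1 : tset K D W = (powersetCard D (univ : Finset (Fin K))).biUnion (box W) := by
      ext x
      simp only [tset, mem_filter_univ, mem_biUnion, mem_powersetCard, subset_univ, true_and]
      constructor
      · rintro ⟨h2, h3⟩
        refine ⟨({i | x i ≠ 0} : Finset (Fin K)), h2, ?_⟩
        rw [hmem]
        intro i
        by_cases h : x i = 0
        · rw [if_neg (by simpa using h), h, mem_singleton]
        · rw [if_pos (by simpa using h)]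
          exact h3 i h
      · rintro ⟨S, hS, hx⟩
        have h4 := hsupp S x hx
        refine ⟨?_, ?_⟩
        · rw [nzb, h4, hS]
        · intro i hi
          have h5 : i ∈ S := by
            rw [← h4, mem_filter_univ]
            exact hi
          have := (hmem W S x).1 hx i
          rwa [if_pos h5] at this
    rw [h1, card_biUnion]
    · rw [sum_congr rfl fun S hS => by rw [hcard, (mem_powersetCard.1 hS).2], sum_const,
        card_powersetCard, card_univ, Fintype.card_fin, smul_eq_mul]
    · intro S _ S' _ hne
      show Disjoint (box W S) (box W S')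
      rw [disjoint_left]
      intro x hx hx'
      exact hne ((hsupp S x hx).symm.trans (hsupp S' x hx'))
  · intro hD1 hDK
    have h1 : bset A K D ⊆ (powersetCard (D - 1) (univ : Finset (Fin K))).biUnion (box univ) := by
      intro x hx
      simp only [bset, mem_filter_univ] at hx
      have h2 : #({i | x i ≠ 0} : Finset (Fin K)) ≤ D - 1 := by
        have : nzb x = #({i | x i ≠ 0} : Finset (Fin K)) := rfl
        omega
      obtain ⟨S, hS, _, hSc⟩ := exists_subsuperset_card_eq
        (subset_univ ({i | x i ≠ 0} : Finset (Fin K))) h2
        (by rw [card_univ, Fintype.card_fin]; omega)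
      rw [mem_biUnion]
      refine ⟨S, mem_powersetCard.2 ⟨subset_univ _, hSc⟩, ?_⟩
      rw [hmem]
      intro i
      by_cases h : i ∈ S
      · rw [if_pos h]; exact mem_univ _
      · rw [if_neg h, mem_singleton]
        by_contra h3
        exact h (hS (by rw [mem_filter_univ]; exact h3))
    calc #(bset A K D) ≤ _ := card_le_card h1
      _ ≤ #(powersetCard (D - 1) (univ : Finset (Fin K))) * Fintype.card A ^ (D - 1) := by
          refine card_biUnion_le_card_mul _ _ _ fun S hS => ?_
          rw [hcard, (mem_powersetCard.1 hS).2, card_univ]
      _ = _ := by rw [card_powersetCard, card_univ, Fintype.card_fin]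

end Pool.Agent.Lib.MP_c5838f_co.SP.H65
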